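import Pool.Agent.H94.CB.AD.T.Ell
import Pool.Agent.H94.CB.AD.T.NCDefs
import Pool.Agent.H94.CB.M119
import Pool.Agent.H94.CB.M122
import Pool.Agent.H94.CB.M128

/-!
# H19T FAsm: from the sheets in the cone to the theorem in the projective space
-/

set_option autoImplicit false

open Topology Filter Metric MvPolynomial

noncomputable section

namespace Pool.Agent.H19T

attribute [-instance] ProperSMul.toContinuousSMul

open Pool.Agent.H36.BP (EN fs wd Curve BrodyMod)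
open Pool.Agent.H14.PP (IsCone CurveAt Tan)
open Pool.Agent.H62.FC (Homog)
open Pool.Agent.H62.EF (MN pr pr_eq_iff pr_smul continuousAt_pr)
open Pool.Agent.H22.W (PseudoLength tan_entire)
open Pool.Agent.H17 (PN VanishesAt HolomorphicInto ZariskiClosedIn puncturedDisc)
open Pool.Agent.H17LG.Variety (FunField IsLogGeneralType)
open Pool.Agent.H17EF (projVar coneE LE mk_symm prP prP_injective mk_mem_projVar mem_coneE)
open Pool.Agent.H13.SM (conTan)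
open Pool.Agent.H13.OT (OrderTwo)
open Pool.Agent.H14.KB (KobayashiHyperbolicModulo)
open Pool.Agent.H14.V (IsLift brodyCurves boundedDistortion IsNull isLift_mk exists_isLift)
open Pool.Agent.AD (Vd Chart Charts TorusMapV DiscreteSub uV uV_eq sub_mem_iff torusMapV discreteSub_of isCone_coneE charts_coneE IsHolomorphicTorusMap exists_scale_down)
open Pool.Agent.AD.P (fQ fQ_smul fQ_analytic vanishes_iff)

variable {N n : ℕ}

/-- the sheets in the cone -/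
structure Fam (P : Ideal (MvPolynomial (Fin (N + 1)) ℂ)) (Λ : AddSubgroup (Fin n → ℂ)) (u : PN N → (Fin n → ℂ) ⧸ Λ) {J : ℕ}
    (Ψ : Fin J → Vd n → MN N) : Prop where
  mem : ∀ j, Ψ j ∈ ShV (coneE P) Λ (uV Λ u)
  all : ∀ Φ ∈ ShV (coneE P) Λ (uV Λ u), ∃ j, Φ = Ψ j
  per : ∃ M : ℕ, 1 ≤ M ∧ ∀ j, ∀ l ∈ Λ, ∀ w, Ψ j (w + M • l) = Ψ j w
  disj : ∀ j k w w', Ψ j w = Ψ k w' → w - w' ∈ Λ ∧ ∀ y, Ψ j (w + y) = Ψ k (w' + y)
  etale : EtaleIn 1 (DV (coneE P) Ψ) (coneE P) Λ (uV Λ u)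

variable {P : Ideal (MvPolynomial (Fin (N + 1)) ℂ)} {Λ : AddSubgroup (Fin n → ℂ)} {u : PN N → (Fin n → ℂ) ⧸ Λ} {J : ℕ} {Ψ : Fin J → Vd n → MN N}

theorem exists_coord_of_basis [P.IsPrime] {d : ℕ} {z : Fin (d + 1) → FunField P} (hz : IsTranscendenceBasis ℂ z) :
    ∃ i, (X i : MvPolynomial (Fin (N + 1)) ℂ) ∉ P := by
  obtain ⟨i, hi⟩ := Pool.Agent.H92.GT.Proj.exists_coordFun_ne_zero P z hz
  refine ⟨i, fun h => hi ?_⟩
  have h1 : (Ideal.Quotient.mk P) (X i : MvPolynomial (Fin (N + 1)) ℂ) = 0 := Ideal.Quotient.eq_zero_iff_mem.2 h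
  show algebraMap _ _ ((Ideal.Quotient.mk P) (X i : MvPolynomial (Fin (N + 1)) ℂ)) = 0
  rw [h1, map_zero]

/-- forms which are zero on `D` -/
theorem fQ_zero {Φ : Fin J → (Fin n → ℂ) → PN N} (hΦ : sheets (projVar P) Λ u = Set.range Φ) (hΦp : ∀ j w, prP (Φ j w) = Ψ j w)
    {Q : MvPolynomial (Fin (N + 1)) ℂ} {e : ℕ} (hQ : Q.IsHomogeneous e) (h : ∀ x ∈ sheetSet (projVar P) Λ u, VanishesAt Q x) :
    ∀ x ∈ DV (coneE P) Ψ, fQ Q x = 0 := by
  intro x hx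
  have h0 : x.ofLp ≠ 0 := hx.1.1
  rw [← vanishes_iff hQ h0]
  exact h _ ((mem_sheetSet_iff hΦ hΦp h0 hx.1).2 hx)

theorem Fam.torusSheets [P.IsPrime] (hP : Homog P) {z : Fin (n + 1) → FunField P} (hz : IsTranscendenceBasis ℂ z) (h : Fam P Λ u Ψ) : TorusSheets P Λ u := by
  obtain ⟨Φ, hΦ, hΦp⟩ := sheets_eq hP h.mem h.all
  have hX := isCone_coneE hP
  refine ⟨?_, ?_, ?_, ?_⟩
  · rw [hΦ]
    exact Set.finite_range Φ
  · obtain ⟨M, hM, hper⟩ := h.per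
    refine ⟨M, hM, ?_⟩
    rw [hΦ]
    rintro _ ⟨j, rfl⟩ l hl w
    apply prP_injective
    rw [hΦp, hΦp]
    exact hper j l hl w
  · rw [hΦ]
    rintro _ ⟨j, rfl⟩ _ ⟨k, rfl⟩ w w' hw
    obtain ⟨h1, h2⟩ := h.disj j k w w' (by rw [← hΦp, ← hΦp, hw])
    refine ⟨h1, fun y => ?_⟩
    apply prP_injective
    rw [hΦp, hΦp]
    exact h2 y
  · obtain ⟨e, Q, -, hQ, hQP, hQD⟩ := Pool.Agent.H22.AlgD.exists_form_of_etale le_rfl hz (exists_coord_of_basis hz) h.etale hX.zero_notMem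
    refine ⟨Q, e, hQ, fun x hx => ?_, Pool.Agent.H17EF.exists_point hP (exists_coord_of_basis hz) hQP hQ⟩
    have hxX : x ∈ projVar P := by
      simp only [sheetSet, Set.mem_iUnion] at hx
      obtain ⟨Φ', hΦ', w, rfl⟩ := hx
      exact hΦ'.2.1 w
    obtain ⟨y, hy, -, h0, rfl⟩ := exists_cone_point hP hxX
    rw [vanishes_iff hQ h0]
    exact hQD y ((mem_sheetSet_iff hΦ hΦp h0 hy).1 hx)

/-- **Curves of order two.** -/
theorem exists_affine [P.IsPrime] (hP : Homog P) {z : Fin (n + 1) → FunField P} (hz : IsTranscendenceBasis ℂ z) (hsm : Pool.Agent.AD.NC.IsSmooth P (n + 1))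
    [DiscreteTopology Λ] (hu : IsHolomorphicTorusMap (projVar P) Λ u)
    (hfib : ∀ f ∈ brodyCurves (projVar P) 1, (∀ z w, u (f z) = u (f w)) → ∀ z w, f z = f w)
    {f : ℂ → PN N} (hf : HolomorphicInto f Set.univ) (hfo : OrderTwo f) (hfX : ∀ z, f z ∈ projVar P) (hne : ∃ z w, f z ≠ f w) :
    ∃ (c : ℂ) (v b : Vd n) (G : ℂ → EN N), c ≠ 0 ∧ v ≠ 0 ∧ Differentiable ℂ G ∧ (∀ z, G z ∈ coneE P) ∧ (∀ z, prP (f (c * z)) = pr (G z)) ∧
      ∀ z, uV Λ u (G z) - (b + z • v) ∈ Λ := by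
  have hX := isCone_coneE hP
  have hch := charts_coneE hP hz hsm
  have hΛ := discreteSub_of Λ
  have hT := torusMapV hP hu
  obtain ⟨ν, hν⟩ := Pool.Agent.AD.exists_torusLength hP hch hu
  obtain ⟨c, L, hc, hscale⟩ := exists_scale_down hP hz hsm ν fun f hf hnull => hfib f hf (hν f hf.1 hnull)
  obtain ⟨a, ha, hfX', G, hG, hGb⟩ := hscale f hf hfo hfX hne
  have hGX : ∀ z, G z ∈ coneE P := fun z => (hG.mem_iff hP z).1 (hfX' z)
  obtain ⟨v, hv⟩ : ∃ v, v = hT.du (G 0) (deriv G 0) := ⟨_, rfl⟩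
  have h1 := hT.affine_of_du hΛ hG.1 hGX (a := v) fun z => by
    rw [hv]
    exact hT.du_const hX hch hΛ hG.1 hGX (fun z => (hGb z).2) z 0
  have h2 : ∀ z, uV Λ u (G z) - (uV Λ u (G 0) + z • v) ∈ Λ := fun z => by
    have h3 := h1 z 0
    rw [sub_zero] at h3
    rwa [← sub_sub]
  refine ⟨a, v, uV Λ u (G 0), G, ha, ?_, hG.1, hGX, hG.prP, h2⟩
  rintro hv0
  rw [hv0] at h2
  have h3 := fib_all hP hch hu hfib G hG.1 hGX (fun z => by
    have h4 := h2 z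
    rwa [smul_zero, add_zero] at h4)
  obtain ⟨z₁, z₂, hz₁₂⟩ := hne
  apply hz₁₂
  apply prP_injective
  have h4 : ∀ z, prP (f z) = pr (G (a⁻¹ * z)) := fun z => by
    rw [← hG.prP, mul_inv_cancel_left₀ ha]
  rw [h4, h4, h3, h3 (a⁻¹ * z₂)]

theorem coe_uV {G : EN N} (hG : G ∈ coneE P) {x : PN N} (h : prP x = pr G) : ((uV Λ u G : Fin n → ℂ) : (Fin n → ℂ) ⧸ Λ) = u x := by
  have h1 : (LE N).symm G ≠ 0 := hG.1
  rw [uV_eq Λ u h1]
  congr 1
  apply prP_injective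
  rw [h]
  exact mk_symm h1

/-- curves of order two over good directions -/
theorem Fam.orderTwo [P.IsPrime] (hP : Homog P) {z : Fin (n + 1) → FunField P} (hz : IsTranscendenceBasis ℂ z) (hsm : Pool.Agent.AD.NC.IsSmooth P (n + 1))
    [DiscreteTopology Λ] (hu : IsHolomorphicTorusMap (projVar P) Λ u)
    (hfib : ∀ f ∈ brodyCurves (projVar P) 1, (∀ z w, u (f z) = u (f w)) → ∀ z w, f z = f w) (h : Fam P Λ u Ψ)
    (bad : Vd n → Prop) (hbad : ∀ (c : ℂ) v, c ≠ 0 → bad v → bad (c • v))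
    (hdir : ∀ v, v ≠ 0 → ¬ bad v → ∀ b, ∀ G : ℂ → EN N, Differentiable ℂ G → (∀ z, G z ∈ coneE P) → (∀ z, uV Λ u (G z) - (b + z • v) ∈ Λ) →
      ∃ j, ∀ z, pr (G z) = Ψ j (b + z • v))
    {f : ℂ → PN N} (hf : HolomorphicInto f Set.univ) (hfo : OrderTwo f) (hfX : ∀ z, f z ∈ projVar P) (hne : ∃ z w, f z ≠ f w) :
    ∃ a b : Fin n → ℂ, a ≠ 0 ∧ (∀ z, u (f z) = ((z • a + b : Fin n → ℂ) : (Fin n → ℂ) ⧸ Λ)) ∧
      (bad a ∨ ∃ Φ ∈ sheets (projVar P) Λ u, ∀ z, f z = Φ (z • a + b)) := by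
  obtain ⟨Φ, hΦ, hΦp⟩ := sheets_eq hP h.mem h.all
  obtain ⟨c, v, b, G, hc, hv, hG, hGX, hGf, hGu⟩ := exists_affine hP hz hsm hu hfib hf hfo hfX hne
  have hci : c⁻¹ ≠ 0 := inv_ne_zero hc
  have hfG : ∀ z, prP (f z) = pr (G (c⁻¹ * z)) := fun z => by
    rw [← hGf, mul_inv_cancel_left₀ hc]
  have harg : ∀ z : ℂ, z • c⁻¹ • v + b = b + (c⁻¹ * z) • v := fun z => by
    rw [smul_smul, mul_comm z, add_comm]
  refine ⟨c⁻¹ • v, b, smul_ne_zero hci hv, fun z => ?_, ?_⟩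
  · have h1 := coe_uV (Λ := Λ) (u := u) (hGX _) (hfG z)
    rw [← h1, harg, ← sub_mem_iff]
    exact hGu _
  · by_cases hb : bad v
    · exact Or.inl (hbad _ _ hci hb)
    · right
      obtain ⟨j, hj⟩ := hdir v hv hb b G hG hGX hGu
      refine ⟨Φ j, by rw [hΦ]; exact ⟨j, rfl⟩, fun z => ?_⟩
      apply prP_injective
      rw [hΦp, harg, ← hj, hfG]

end Pool.Agent.H19T
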