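import Pool.Agent.H94.CB.M137
import Pool.Agent.H94.CB.M146

/-!
# H19T FMainN: projective manifolds over complex tori of smaller dimension
-/

set_option autoImplicit false

open MvPolynomial Topology Filter
open Pool.Agent.H17 (PN VanishesAt ZariskiClosedIn HolomorphicInto puncturedDisc)
open Pool.Agent.H62.FC (Homog)
open Pool.Agent.H17LG.Variety (FunField IsLogGeneralType)
open Pool.Agent.H17EF (projVar coneE)
open Pool.Agent.H13.OT (OrderTwo)
open Pool.Agent.H14.V (brodyCurves)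
open Pool.Agent.AD (Vd IsHolomorphicTorusMap NoEllipticCurve charts_coneE isCone_coneE torusMapV discreteSub_of uV sub_mem_iff)
open Pool.Agent.TN (Setting exists_setting)
open Pool.Agent.H36.BP (EN)
open Pool.Agent.H62.EF (MN pr)

noncomputable section

namespace Pool.Agent.H19T

attribute [-instance] ProperSMul.toContinuousSMul

variable {N k : ℕ}

/-- **Main theorem.**  `X` a smooth projective variety of dimension `k + 2` with ample canonical bundle, `u` a holomorphic map to a complex torus of dimension `k + 1`, such that every entire curve `f` in a fibre of `u` with `|f'| ≤ 1` is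
constant. -/
theorem mainN (hk : 1 ≤ k) (P : Ideal (MvPolynomial (Fin (N + 1)) ℂ)) [P.IsPrime] (hP : Homog P) (hdim : ∃ z : Fin (k + 2) → FunField P, IsTranscendenceBasis ℂ z)
    (hsmooth : Pool.Agent.AD.NC.IsSmooth P (k + 2)) (hample : CanonicalAmple P (k + 2)) (Λ : AddSubgroup (Fin (k + 1) → ℂ)) [DiscreteTopology Λ]
    (hspan : Submodule.span ℝ (Λ : Set (Fin (k + 1) → ℂ)) = ⊤) (u : PN N → (Fin (k + 1) → ℂ) ⧸ Λ)
    (hu : IsHolomorphicTorusMap (projVar P) Λ u)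
    (hfib : ∀ f ∈ brodyCurves (projVar P) 1, (∀ z w, u (f z) = u (f w)) → ∀ z w, f z = f w) :
    TorusSheets P Λ u ∧
    (∀ f : ℂ → PN N, HolomorphicInto f Set.univ → OrderTwo f → (∀ z, f z ∈ projVar P) → (∃ z w, f z ≠ f w) →
      ∃ a b : Fin (k + 1) → ℂ, a ≠ 0 ∧ (∀ z, u (f z) = ((z • a + b : Fin (k + 1) → ℂ) : (Fin (k + 1) → ℂ) ⧸ Λ)) ∧
        (SpecialDir Λ a ∨ ∃ Φ ∈ sheets (projVar P) Λ u, ∀ z, f z = Φ (z • a + b))) ∧
    ((∀ f : ℂ → PN N, HolomorphicInto f Set.univ → OrderTwo f → (∀ z, f z ∈ projVar P) → ∀ a b : Fin (k + 1) → ℂ, a ≠ 0 → SpecialDir Λ a →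
      (∀ z, u (f z) = ((z • a + b : Fin (k + 1) → ℂ) : (Fin (k + 1) → ℂ) ⧸ Λ)) → ∀ z, f z ∈ sheetSet (projVar P) Λ u) → TorusCurves P Λ u) := by
  obtain ⟨z, hz⟩ := hdim
  obtain ⟨m, K, Ω, hm, hΩ⟩ := hample
  have hgt := generalType_of_noCommonZero hP hm hΩ (by omega) hz
  obtain ⟨Ω', hΩ'⟩ := exists_tforms hΩ
  have hX := isCone_coneE hP
  have hch := charts_coneE hP hz hsmooth
  have hne : (coneE P).Nonempty := by
    obtain ⟨x, hx, -⟩ := Pool.Agent.H17EF.exists_point hP (exists_coord_of_basis hz) (Q := 1) (fun h => (inferInstance : P.IsPrime).ne_top ((Ideal.eq_top_iff_one P).2 h))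
      (isHomogeneous_one _ _)
    obtain ⟨y, hy, -⟩ := exists_cone_point hP hx
    exact ⟨y, hy⟩
  obtain ⟨S, hSΛ, hSu⟩ := exists_setting hX hch hne (torusMapV hP hu) (discreteSub_of Λ) (cocompact_of_span hspan) hm Ω' hΩ' (fib_all hP hch hu hfib)
  have hDir : ∀ v : Vd (k + 1), v ≠ 0 → ¬ SpecialDir Λ v → S.Dir v := by
    intro v hv hsp
    rw [← hSΛ] at hsp
    exact S.dir_of_not_special hv hsp
  obtain ⟨v₀, hv₀, hsp₀⟩ := exists_not_special (Nat.succ_pos k) Λ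
  obtain ⟨J, Ψ, hΨ⟩ := S.exists_sheets hk (hDir v₀ hv₀ hsp₀)
  have hfam := fam_of_sheetsN S hΨ rfl hSΛ hSu
  have hdir : ∀ v : Vd (k + 1), v ≠ 0 → ¬ SpecialDir Λ v → ∀ b, ∀ G : ℂ → EN N, Differentiable ℂ G → (∀ z, G z ∈ coneE P) →
      (∀ z, uV Λ u (G z) - (b + z • v) ∈ Λ) → ∃ j, ∀ z, pr (G z) = Ψ j (b + z • v) := by
    intro v hv hsp b G hG hGX hGu
    exact hΨ.curves v (hDir v hv hsp) b G ⟨hG, hGX, by rw [hSΛ, hSu]; exact hGu⟩
  refine ⟨hfam.torusSheets hP hz, fun f hf hfo hfX hne => hfam.orderTwo hP hz hsmooth hu hfib (SpecialDir Λ) (fun c v _ h => special_smul c h) hdir hf hfo hfX hne,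
    fun hs => hfam.torusCurves (by omega) hP hz hsmooth hu hfib hm hΩ' hgt hspan fun v hv b G hG hGX hGu => ?_⟩
  by_cases hsp : SpecialDir Λ v
  · obtain ⟨c, L, r₀, c₁, K, hdat⟩ := S.exists_dat hv
    have hGS : G ∈ S.G v b := ⟨hG, hGX, by rw [hSΛ, hSu]; exact hGu⟩
    exact special_curve hP hu hfam (fun f hf hfo hfX hfu => hs f hf hfo hfX v b hv hsp hfu) hG hGX (fun z => ((hdat.sub b hGS).2.2 z).2) hGu
  · exact hdir v hv hsp b G hG hGX hGu

end Pool.Agent.H19T
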